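import Pool.Agent.Helper2.NNQ.Stm

set_option autoImplicit false

open MeasureTheory Filter Topology Finset
open scoped Real

namespace Pool.Agent.Helper62K5.NNQ

open Pool.Agent.Helper2.NNQ

theorem log_ge_one {m : ℕ} (hm : 3 ≤ m) : 1 ≤ Real.log m := by
  rw [Real.le_log_iff_exp_le (by positivity)]
  have h1 : Real.exp 1 < 2.7182818286 := Real.exp_one_lt_d9
  have h2 : (3 : ℝ) ≤ m := by exact_mod_cast hm
  linarith

theorem inner_bound (m N : ℕ) (hm : 3 ≤ m) :
    ∑ n ∈ range N, (if m < n ∧ n ≤ 2 * m then 1 / (((n : ℝ) - m) * Real.log n) else 0) ≤ 2 := by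
  have hl := log_ge_one hm
  have hl0 : 0 < Real.log m := by linarith
  rw [← Finset.sum_filter]
  have h1 : ∑ n ∈ (range N).filter (fun n => m < n ∧ n ≤ 2 * m),
      1 / (((n : ℝ) - m) * Real.log n) ≤
      ∑ n ∈ Finset.Ioc m (2 * m), 1 / (((n : ℝ) - m) * Real.log m) := by
    refine (Finset.sum_le_sum fun n hn => ?_).trans
      (Finset.sum_le_sum_of_subset_of_nonneg (fun n hn => ?_) fun n hn _ => ?_)
    · rw [Finset.mem_filter] at hn
      have h2 : (m : ℝ) < n := by exact_mod_cast hn.2.1
      have h3 : 0 < (n : ℝ) - m := by linarith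
      have h4 : Real.log m ≤ Real.log n := Real.log_le_log (by positivity) h2.le
      exact one_div_le_one_div_of_le (mul_pos h3 hl0) (mul_le_mul_of_nonneg_left h4 h3.le)
    · rw [Finset.mem_filter] at hn
      rw [Finset.mem_Ioc]
      exact hn.2
    · rw [Finset.mem_Ioc] at hn
      have h2 : (m : ℝ) < n := by exact_mod_cast hn.1
      have h3 : 0 < (n : ℝ) - m := by linarith
      positivity
  have h2 : ∑ n ∈ Finset.Ioc m (2 * m), 1 / (((n : ℝ) - m) * Real.log m) =
      (∑ j ∈ Finset.Icc 1 m, ((j : ℝ))⁻¹) * (Real.log m)⁻¹ := by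
    rw [Finset.sum_mul]
    refine Finset.sum_nbij' (fun n => n - m) (fun j => j + m) ?_ ?_ ?_ ?_ ?_
    · intro n hn
      rw [Finset.mem_Ioc] at hn
      rw [Finset.mem_Icc]
      omega
    · intro j hj
      rw [Finset.mem_Icc] at hj
      rw [Finset.mem_Ioc]
      omega
    · intro n hn
      rw [Finset.mem_Ioc] at hn
      show n - m + m = n
      omega
    · intro j hj
      show j + m - m = j
      omega
    · intro n hn
      rw [Finset.mem_Ioc] at hn
      rw [Nat.cast_sub hn.1.le, one_div, mul_inv]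
  have h3 : (∑ j ∈ Finset.Icc 1 m, ((j : ℝ))⁻¹) ≤ 1 + Real.log m := by
    have h4 := harmonic_le_one_add_log m
    rw [harmonic_eq_sum_Icc] at h4
    push_cast at h4
    exact h4
  calc _ ≤ _ := h1
    _ = _ := h2
    _ ≤ (1 + Real.log m) * (Real.log m)⁻¹ := by gcongr
    _ ≤ (2 * Real.log m) * (Real.log m)⁻¹ := by
      gcongr
      linarith
    _ = 2 := by field_simp

theorem wt_nonneg (S : Set ℕ) (n : ℕ) : 0 ≤ wt S n := by
  unfold wt
  refine Set.indicator_nonneg (fun k _ => ?_) n
  rcases Nat.eq_zero_or_pos k with rfl | hk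
  · simp
  · have : 0 ≤ Real.log k := Real.log_natCast_nonneg k
    positivity

theorem t_COMB : S_COMB := by
  refine ⟨2, by norm_num, fun S N => ?_⟩
  classical
  have hw := wt_nonneg S
  have hA : ∀ m n : ℕ, 0 ≤ wt S m *
      (if 3 ≤ m ∧ m < n ∧ n ≤ 2 * m then 1 / (((n : ℝ) - m) * Real.log n) else 0) := by
    intro m n
    refine mul_nonneg (hw m) ?_
    split_ifs with h
    · have h2 : (m : ℝ) < n := by exact_mod_cast h.2.1
      have h3 : 0 < (n : ℝ) - m := by linarith
      have h4 : 0 ≤ Real.log n := Real.log_natCast_nonneg n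
      positivity
    · exact le_rfl
  have key : ∀ m n : ℕ, wp S m n ≤ wt S m *
      (if 3 ≤ m ∧ m < n ∧ n ≤ 2 * m then 1 / (((n : ℝ) - m) * Real.log n) else 0) +
      2 * (wt S m * wt S n) := by
    intro m n
    unfold wp
    split_ifs with h1 h2 h2
    · have e1 : wt S m = 1 / ((m : ℝ) * Real.log m) := by
        unfold wt; rw [Set.indicator_of_mem h1.2.2.1]
      have h5 : 0 ≤ 2 * (wt S m * wt S n) := by
        have := mul_nonneg (hw m) (hw n)
        linarith
      rw [e1] at h5 ⊢
      have h6 : 1 / ((m : ℝ) * Real.log m * (((n : ℝ) - m) * Real.log n)) =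
          1 / ((m : ℝ) * Real.log m) * (1 / (((n : ℝ) - m) * Real.log n)) := by
        rw [one_div_mul_one_div]
      rw [h6]
      linarith
    · have e1 : wt S m = 1 / ((m : ℝ) * Real.log m) := by
        unfold wt; rw [Set.indicator_of_mem h1.2.2.1]
      have e2 : wt S n = 1 / ((n : ℝ) * Real.log n) := by
        unfold wt; rw [Set.indicator_of_mem h1.2.2.2]
      have h3 : 2 * m < n := by
        by_contra hc
        exact h2 ⟨h1.1, h1.2.1, by omega⟩
      have h3' : (2 : ℝ) * m < n := by exact_mod_cast h3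
      have hn3 : 3 ≤ n := by omega
      have hlm := log_ge_one h1.1
      have hln := log_ge_one hn3
      have hm0 : (3 : ℝ) ≤ m := by exact_mod_cast h1.1
      have hn0 : (0 : ℝ) < n := by linarith
      have h6 : 1 / ((m : ℝ) * Real.log m * (((n : ℝ) - m) * Real.log n)) =
          1 / ((m : ℝ) * Real.log m) * (1 / (((n : ℝ) - m) * Real.log n)) := by
        rw [one_div_mul_one_div]
      rw [h6, e1, e2, mul_zero, zero_add]
      have h7 : 1 / (((n : ℝ) - m) * Real.log n) ≤ 2 * (1 / ((n : ℝ) * Real.log n)) := by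
        have h8 : 1 / (((n : ℝ) - m) * Real.log n) ≤ 1 / ((n : ℝ) / 2 * Real.log n) := by
          refine one_div_le_one_div_of_le (by positivity) ?_
          refine mul_le_mul_of_nonneg_right ?_ (by linarith)
          linarith
        refine h8.trans (le_of_eq ?_)
        field_simp
      have h9 : 0 ≤ 1 / ((m : ℝ) * Real.log m) := by positivity
      calc 1 / ((m : ℝ) * Real.log m) * (1 / (((n : ℝ) - m) * Real.log n))
          ≤ 1 / ((m : ℝ) * Real.log m) * (2 * (1 / ((n : ℝ) * Real.log n))) := by gcongr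
        _ = 2 * (1 / ((m : ℝ) * Real.log m) * (1 / ((n : ℝ) * Real.log n))) := by ring
    · have h3 := hA m n
      rw [if_pos h2] at h3
      have := mul_nonneg (hw m) (hw n)
      linarith
    · have := mul_nonneg (hw m) (hw n)
      linarith
  have hW : 0 ≤ ∑ n ∈ range N, wt S n := Finset.sum_nonneg fun n _ => hw n
  have s1 : ∑ n ∈ range N, ∑ m ∈ range n, wp S m n ≤
      ∑ n ∈ range N, ∑ m ∈ range N, (wt S m *
      (if 3 ≤ m ∧ m < n ∧ n ≤ 2 * m then 1 / (((n : ℝ) - m) * Real.log n) else 0) +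
      2 * (wt S m * wt S n)) := by
    refine Finset.sum_le_sum fun n hn => ?_
    rw [Finset.mem_range] at hn
    refine (Finset.sum_le_sum fun m _ => key m n).trans
      (Finset.sum_le_sum_of_subset_of_nonneg (Finset.range_subset_range.2 hn.le)
        fun m _ _ => ?_)
    have := mul_nonneg (hw m) (hw n)
    have := hA m n
    linarith
  have s2 : ∑ n ∈ range N, ∑ m ∈ range N, wt S m *
      (if 3 ≤ m ∧ m < n ∧ n ≤ 2 * m then 1 / (((n : ℝ) - m) * Real.log n) else 0) ≤
      2 * ∑ n ∈ range N, wt S n := by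
    rw [Finset.sum_comm, Finset.mul_sum]
    refine Finset.sum_le_sum fun m _ => ?_
    rw [← Finset.mul_sum]
    by_cases hm : 3 ≤ m
    · have h1 := inner_bound m N hm
      simp only [hm, true_and]
      exact (mul_le_mul_of_nonneg_left h1 (hw m)).trans (le_of_eq (mul_comm _ _))
    · simp only [hm, false_and, if_false, Finset.sum_const_zero, mul_zero]
      have := hw m
      linarith
  have s3 : ∑ n ∈ range N, ∑ m ∈ range N, 2 * (wt S m * wt S n) =
      2 * (∑ n ∈ range N, wt S n) ^ 2 := by
    rw [pow_two, Finset.sum_mul_sum, Finset.mul_sum]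
    refine Finset.sum_congr rfl fun n _ => ?_
    rw [Finset.mul_sum]
    refine Finset.sum_congr rfl fun m _ => ?_
    ring
  simp only [Finset.sum_add_distrib] at s1
  rw [s3] at s1
  nlinarith

end Pool.Agent.Helper62K5.NNQ
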