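import Pool.Agent.Helper2.NNQ.DimStm
import Pool.Agent.H438R2.Nest

set_option autoImplicit false

open MeasureTheory Filter Topology
open scoped Real ENNReal NNReal

namespace Pool.Agent.Helper62K5.NNQ

open Pool.Agent.Helper2.NNQ

/-- a sequence of integers that takes every value infinitely often -/
def kk (j : ℕ) : ℤ := Equiv.intEquivNat.symm (Nat.unpair j).1

theorem kk_often (k : ℤ) (M : ℕ) : ∃ j, M ≤ j ∧ kk j = k := by
  refine ⟨Nat.pair (Equiv.intEquivNat k) M, Nat.right_le_pair _ _, ?_⟩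
  unfold kk
  rw [Nat.unpair_pair]
  exact Equiv.symm_apply_apply _ _

theorem DIM_lower (h : S_STEP) (g : ℕ → ℝ → ℝ)
    (hg : ∀ u : ℝ, ∃ r₀ : ℝ, 0 < r₀ ∧ ∀ r : ℝ, 0 < r → r < r₀ →
      Good g (fun _ => 2 / 3) (u - r) (u + r))
    (S : Set ℕ) (hS : S.Infinite) (a b : ℝ) (hab : a < b) (s : ℝ) (hs : 0 < s) (hs1 : s < 1) :
    μH[s] ({x : ℝ | ∀ k : ℤ, {n : ℕ | n ∈ S ∧ x ∈ PP (g n) k}.Infinite} ∩ Set.Ioo a b) ≠ 0 := by
  obtain ⟨κ, hκ, hκ1, hstep⟩ := h s hs hs1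
  set u : ℝ := (a + b) / 2 with hu
  obtain ⟨r₀, hr₀, hgood⟩ := hg u
  set r : ℝ := min (r₀ / 2) ((b - a) / 4) with hr
  have hr0 : 0 < r := lt_min (by linarith) (by linarith)
  have hr1 : r < r₀ := lt_of_le_of_lt (min_le_left _ _) (by linarith)
  have hr2 : r ≤ (b - a) / 4 := min_le_right _ _
  have hG := hgood r hr0 hr1
  set Rg : Set (ℝ × ℝ) := {p | 0 < p.2 ∧ p.2 ≤ 1 / 4 ∧ u - r ≤ p.1 - p.2 ∧ p.1 + p.2 ≤ u + r}
    with hRg
  set V : ℕ → Set ℝ := fun j => {x | ∃ n ∈ S, j ≤ n ∧ x ∈ PP (g n) (kk j)} with hV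
  have hb0 : ((u, min r (1 / 4)) : ℝ × ℝ) ∈ Rg := by
    have h1 : min r (1 / 4) ≤ r := min_le_left _ _
    refine ⟨lt_min hr0 (by norm_num), min_le_right _ _, ?_, ?_⟩
    · show u - r ≤ u - min r (1 / 4)
      linarith
    · show u + min r (1 / 4) ≤ u + r
      linarith
  have key := Pool.Agent.H438R2.nest s κ hs hκ hκ1 Rg V (fun p hp => hp.1) (by
    intro p hp j δ hδ
    obtain ⟨hp1, hp2, hp3, hp4⟩ := hp
    obtain ⟨n₀, hn₀⟩ := hstep (kk j) g (u - r) (u + r) hG p.1 p.2 hp1 hp2 hp3 hp4 (min δ (1 / 4))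
      (lt_min hδ (by norm_num))
    obtain ⟨n, hnS, hn⟩ := hS.exists_gt (max n₀ j)
    obtain ⟨t, F, ht0, htδ, hF, hN, hU⟩ := hn₀ n ((le_max_left _ _).trans hn.le)
    refine ⟨t, F, ht0, htδ.trans (min_le_left _ _), fun y hy => ?_, hN, hU⟩
    obtain ⟨hy1, hy2⟩ := hF y hy
    refine ⟨⟨ht0, htδ.trans (min_le_right _ _), ?_, ?_⟩, hy1, fun x hx => ?_⟩
    · have h1 : y - t ∈ Metric.closedBall p.1 p.2 := hy1 (by
        rw [Metric.mem_closedBall, Real.dist_eq]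
        rw [show y - t - y = -t by ring, abs_neg, abs_of_pos ht0])
      rw [Metric.mem_closedBall, Real.dist_eq, abs_le] at h1
      show u - r ≤ y - t
      linarith [h1.1]
    · have h1 : y + t ∈ Metric.closedBall p.1 p.2 := hy1 (by
        rw [Metric.mem_closedBall, Real.dist_eq]
        rw [show y + t - y = t by ring, abs_of_pos ht0])
      rw [Metric.mem_closedBall, Real.dist_eq, abs_le] at h1
      show y + t ≤ u + r
      linarith [h1.2]
    · exact ⟨n, hnS, (le_max_right _ _).trans hn.le, hy2 hx⟩) (u, min r (1 / 4)) hb0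
  intro h0
  refine key (measure_mono_null ?_ h0)
  rintro x ⟨hx1, hx2⟩
  refine ⟨fun k => ?_, ?_⟩
  · rw [Set.infinite_iff_exists_gt]
    intro M
    obtain ⟨j, hj, hjk⟩ := kk_often k (M + 1)
    obtain ⟨n, hnS, hn, hx⟩ := hx1 j
    rw [hjk] at hx
    exact ⟨n, ⟨hnS, hx⟩, by omega⟩
  · rw [Metric.mem_closedBall, Real.dist_eq, abs_le] at hx2
    have h1 : min r (1 / 4) ≤ r := min_le_left _ _
    obtain ⟨h2, h3⟩ := hx2
    simp only at h2 h3
    constructor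
    · linarith
    · linarith

theorem t_DIM (h : S_STEP) : S_DIM := by
  intro g hg S hS a b hab
  apply le_antisymm
  · exact (dimH_mono (Set.subset_univ _)).trans (le_of_eq Real.dimH_univ)
  · refine le_of_forall_lt fun c hc => ?_
    obtain ⟨c', hc1, hc2⟩ := exists_between hc
    have hctop : c' ≠ ∞ := ne_top_of_lt hc2
    lift c' to ℝ≥0 using hctop
    have h0 : 0 < (c' : ℝ) := by
      have : (0 : ℝ≥0∞) < c' := lt_of_le_of_lt (zero_le) hc1
      exact_mod_cast this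
    have h1 : (c' : ℝ) < 1 := by
      exact_mod_cast hc2
    exact lt_of_lt_of_le hc1
      (le_dimH_of_hausdorffMeasure_ne_zero (DIM_lower h g hg S hS a b hab c' h0 h1))

end Pool.Agent.Helper62K5.NNQ
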